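import Pool.Agent.MWGN.StmtsC

/-!
# Squad MWGN, row STR: insertion of the square of `ξ` in a word with `Kx` and `Ky` keeps `Kx`
-/

set_option autoImplicit false

namespace Pool.Agent.MWGN.H2

open Pool.Agent.Helper14_MV Pool.Agent.Helper2_MV Pool.Agent.MWGN
open Pool.Agent.MWK (pre Gw)

theorem str_gh_prefix (g h : ℕ → List ℕ) {a b : ℕ} (hab : a ≤ b) :
    ∃ T, gh g h b = gh g h a ++ T := by
  induction b, hab using Nat.le_induction with
  | base => exact ⟨[], by simp⟩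
  | succ b hb ih =>
    obtain ⟨T, hT⟩ := ih
    exact ⟨T ++ (g b ++ h b), by rw [gh_succ, hT, List.append_assoc]⟩

theorem str (h1 : KfiStmt) (h2 : MpfStmt) (h3 : McfStmt) (h4 : OrdStmt) : StrStmt := by
  intro τ r hr ξ η A M N R u v k g h hI hu hv hM2 hM hh0 hη hR hh hKx hKy
  refine ⟨(h1 τ r ξ A M N R k hI u v hu hv).1.1 hKx.1, ?_⟩
  by_contra hcon
  obtain ⟨o1, o2, o3, o4⟩ := h4 τ r u hKx.1
  have K := hKx.1
  obtain ⟨m1, m2, m3⟩ := h2 ξ A M N R k hI u v hu hv hM2 0 (NF.L 0) (NF.L (r + 1)) 2 K.sb K.xb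
    (K.lb 0 (by omega)) (K.lb (r + 1) (by omega)) (o4 0 (r + 1) (by omega) (by omega)) hKx.2 hcon
  have m4 : ∀ i < r + 2, NF.L i ∉ A ∧ NF.L i ∉ ξ ∧ M.count (NF.L i) = 1 ∧
      pre u (NF.L i) = A ++ ((ξ ++ ξ) ++ pre M (NF.L i)) := by
    intro i hi
    refine m3 (NF.L i) ?_ ?_ (K.lb i (by omega))
    · rcases Nat.eq_zero_or_pos i with rfl | hi0
      · exact Or.inl rfl
      · exact Or.inr (o4 0 i hi0 (by omega))
    · rcases Nat.lt_or_ge i (r + 1) with hi1 | hi1
      · exact Or.inr (o4 i (r + 1) hi1 (by omega))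
      · left
        have : i = r + 1 := by omega
        rw [this]
  obtain ⟨c1, c2⟩ := h3 (r + 2) (A ++ (ξ ++ ξ)) M ((ξ ++ ξ) ++ R) u NF.L
    (fun j => if j = 0 then 1 else NF.C j) g h 2 (by rw [hu]; simp [List.append_assoc]) hM K.sb
    (List.mem_append_right _ m2)
    (fun i hi => by
      obtain ⟨a1, a2, a3, a4⟩ := m4 i hi
      refine ⟨?_, a3, K.lb i (by omega)⟩
      rw [List.mem_append, List.mem_append]
      tauto)
    (fun j hj => by
      by_cases hj0 : j = 0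
      · subst hj0
        simp only [if_true]
        exact ⟨o1, K.yb⟩
      · simp only [if_neg hj0]
        exact ⟨o2 j (by omega) (by omega), K.cb j (by omega) (by omega)⟩)
    (fun i hi => by
      obtain ⟨R1, R2, hR12⟩ := hR i hi
      exact ⟨(ξ ++ ξ) ++ R1, R2, by rw [hR12]; simp only [List.append_assoc]⟩)
    hh
  have d0 : (1 : ℕ) ∈ h 0 := by
    have := c2 0 (by omega)
    simpa using this
  have d1 : (1 : ℕ) ∈ h 1 := by
    rw [hh0] at d0
    refine hη 1 ?_
    rcases List.mem_append.1 d0 with hd | hd <;> exact hd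
  have l1 : NF.L 1 ∈ g 1 := c1 1 (by omega)
  have l2 : NF.L 2 ∈ g 2 := c1 2 (by omega)
  obtain ⟨T, hT⟩ := str_gh_prefix g h (a := 3) (b := r + 2) (by omega)
  have hM' : M = (gh g h 1 ++ g 1) ++ (h 1 ++ (g 2 ++ (h 2 ++ T))) := by
    rw [hM, hT, gh_succ g h 2, gh_succ g h 1]
    simp only [List.append_assoc]
  have hM'' : M = ((gh g h 1 ++ g 1) ++ h 1) ++ (g 2 ++ (h 2 ++ T)) := by
    rw [hM']
    simp only [List.append_assoc]
  have p1 : (pre M (NF.L 1)).count 1 ≤ (gh g h 1 ++ g 1).count 1 := by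
    rw [hM', MWK.pre_append_mem (List.mem_append_right _ l1)]
    exact MWK.count_pre_le _ _ _
  have n2 : NF.L 2 ∉ (gh g h 1 ++ g 1) ++ h 1 := by
    intro hmem
    have e1 := (m4 2 (by omega)).2.2.1
    rw [hM'', List.count_append, List.count_append (l₁ := g 2)] at e1
    have e2 : 0 < ((gh g h 1 ++ g 1) ++ h 1).count (NF.L 2) := List.count_pos_iff.2 hmem
    have e3 : 0 < (g 2).count (NF.L 2) := List.count_pos_iff.2 l2
    omega
  have p2 : (gh g h 1 ++ g 1).count 1 + 1 ≤ (pre M (NF.L 2)).count 1 := by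
    rw [hM'', MWK.pre_append n2]
    simp only [List.count_append]
    have e1 : 0 < (h 1).count 1 := List.count_pos_iff.2 d1
    omega
  have q1 : nn u 1 (NF.L 1) < nn u 1 (NF.L 2) := by
    unfold nn
    rw [(m4 1 (by omega)).2.2.2, (m4 2 (by omega)).2.2.2]
    simp only [List.count_append]
    simp only [List.count_append] at p1 p2
    omega
  have q2 : nn u 1 (NF.L 2) ≤ nn u 1 (NF.L (r + 2)) :=
    MWK.count_pre_mono (o4 2 (r + 2) (by omega) (by omega)) 1
  have q3 := hKy.2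
  omega

end Pool.Agent.MWGN.H2
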